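import Mathlib
import Pool.Agent.H845.Orb.Main
import Pool.Agent.H857.MX.Good
import Pool.Graph.R_pool_sql_team_seeded_2aa45f1a.Q64.L.ClThms

/-!
# Numerical and `ℓ`-adic homological equivalence on `A × Z`, for arbitrary varieties `Z` over finitely
# generated fields: an exact criterion for the constant abelian varieties `A` in terms of factorizations
# over the CM fields

**The family.** Let `p` be a prime number, `q = p ^ a`, let `K i` (`i` in a finite set) be **any** CM
fields (they may be dependent, have the same Galois closure, or be equal), and `π i` Weil numbers for
`q` in `K i` such that each power `(π i) ^ n`, `n ≥ 1`, generates `K i` (`IsSimpleWeil`; by Honda and
Tate this is the situation for the simple factors of any abelian variety over a finite field, after a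
finite extension of the field, except for the supersingular factors).

**The criterion** (`IsFree`). Decompose the minimal polynomials (over `ℚ`) of all the numbers `π k`
into monic irreducible factors `g` over the field `K i`, and let `ratio g = g(0) / conj g(0)`. The
number `π i` is free if no positive power of `π i / conj (π i)` is a product of powers of the numbers
`ratio g`, where `g` runs over all these factors except for `X - π i` and `X - conj (π i)`. So one has
to look for multiplicative relations between a few elements of the group `K i ^×`; no Galois closure is
needed. **All `π i` are free if and only if there are no relations between the conjugates of the
`π i`, except for the trivial ones** (the angle rank is maximal, `MaximalAngleRank`), that is, if and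
only if there are no exotic Tate classes on the powers of the abelian varieties of the `π i`.

**The theorem.** Suppose that all `π i` are free. Let `f i` be monic polynomials whose complex roots
are conjugates of `π i` (`IsPolyOf`), for instance powers of the minimal polynomials. Let `A` be an
abelian variety over the field with `Q = q ^ s` elements, `s > 0`, which is isogenous to a product of
powers of abelian varieties which come from the field with `q` elements and have the characteristic
polynomials of Frobenius `f i`. Let `K` be a finitely generated field which contains the field with `Q`
elements, and `Z` ANY smooth projective variety over `K` with good reduction at a place with residue
field of `Q` elements, such that the eigenvalues of the Frobenius element of this ONE place on the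
`ℓ`-adic cohomology of `Z` are free from the `π i`. Here a complex number `ρ ≠ 0` is free from the
`π i` (`FreeFrom`) if a relation `ρ ^ N ∏ (φ (π i)) ^ n(φ) = q ^ c`, `N ≥ 1`, is possible only if
`n(φ) = n(conj φ)` for all `φ`. Then for all `j`: **numerical and homological equivalence coincide on
the cycles of codimension `j` on `A × Z` if and only if they coincide on the cycles of codimension
`j - k` on `Z` for all `0 ≤ k ≤ dim A`** (`NumHomReduces`): `N^j(A × Z) = 0` if and only if
`N^(j - k)(Z) = 0` for these `k`. For instance `N^j(A × Z) = 0` for all `j` if `Z` is a surface.

Nothing else is assumed on `Z`. What is used of `A` are known theorems (`IsAbelian`): `H(A)` is
generated by `H^1`, Frobenius is diagonalizable on `H^1` (Weil), the theorem of Tate on divisors, and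
the nilpotence of homologically trivial correspondences (Kimura). The `ℓ`-adic cohomology `R` of `Z`
and `A × Z` over an algebraic closure of `K` is modelled by `RelData`, with the formal properties in
`IsRel`; the cycles modulo homological equivalence are the theory `T` with an injective cycle map to
`R` (`IsCycles`), and with the intersection products (`IsCupProduct`).

**The criteria** (`FreeCriteria`, part two of the theorem).

* The exactness of the criterion, see above. It is decided by the `p`-adic absolute values of the
  fields `K i`, that is, by the slopes.
* If the fields `K i` are pairwise independent then it is sufficient to consider the `π i` one by one:
  all the other `ratio g` are one.
* **Several Weil numbers in the same fields.** Let the fields `K i` be pairwise independent, with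
  flips (`HasFlip`: for two embeddings `φ`, `ψ` which are not equal or conjugate, there is an
  automorphism which fixes `φ` and conjugates `ψ`), and let `π i j` be several Weil numbers in each
  `K i`. They are all free if and only if for each `i` the numbers `π i j / conj (π i j)` are
  multiplicatively independent. A CM field has flips if some prime number divides its discriminant
  exactly once (and not the discriminant of the maximal real subfield). These are the products of
  non-isogenous abelian varieties with the same CM field.
* **Fields whose embeddings are indexed by subsets.** Let the embeddings of `K` up to conjugation be
  indexed by the subsets `Y` with `k` elements of a finite set `Ω` such that all permutations of `Ω`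
  are induced by automorphisms (`IsSubsetField`; for example `K` is the compositum of an imaginary
  quadratic field and of the field generated by the sum of `k` roots of a totally real polynomial with
  the symmetric Galois group). Then `π` is free if for each `j ≤ k` there are `j` disjoint pairs `x`,
  `y` of elements of `Ω` such that the sum over the `Y` which contain exactly one element of each pair,
  with the signs `(-1) ^ m`, `m` the number of the `y` in `Y`, of the slopes minus one half is not
  zero. For `k = 2` and the slopes `0`, `1` the abelian variety is given by a graph on `Ω`, and it is
  sufficient that the graph does not have one half of all the edges, is not regular, and that there
  are different `x`, `y`, `x'`, `y'` in `Ω` such that the number of edges among `x x'`, `y y'` is not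
  the number of edges among `x y'`, `y x'`. The dimension is `n (n - 1) / 2`, `n` the number of
  elements of `Ω`, and the odd functions on the embeddings have three irreducible components.
* **The exact criterion for `Z`.** All numbers unrelated to the fields `K i` are free from the `π i`.
  A number `φ x` for an element `x` of a CM field `F` with `x * conj x = q ^ w` is free from the `π i`
  if and only if a positive power of `x / conj x` is a product of powers of the `ratio g`, `g` a factor
  over `F` of the minimal polynomial of some `π i`, only with exponents which are the same for `g` and
  for the conjugate polynomial. So the fields of the eigenvalues of `Z` may be related or equal to
  the fields `K i`.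

**What was known.** The framework and the geometric part (`Q64.L.numHomReduces`) are those of the
theorem `AllCMTypesTimesOverFields` of the library, for eigenvalues unrelated to the CM fields and in
terms of the absence of relations; for this question there are bounds for the number of the exceptional
slope types and isogeny classes, and theorems for pairwise independent fields with small cores. New here
are the criterion, necessary and sufficient, for arbitrary families in arbitrary dependent fields, and
the varieties `Z` with eigenvalues in dependent fields.

**The proof.** Let there be a relation between the conjugates of the `π k` with an exponent which is
not symmetric at an embedding `φ` of `K i`. The product of its images under the (finitely many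
permutations induced by the) automorphisms that fix `φ` is a relation with invariant exponents and
still not symmetric at `φ`. The orbits of the stabilizer of `φ` on the embeddings of `K k` are the
factors of the minimal polynomial of `π k` over `K i`, and the products of the conjugates over the
orbits are the constant terms of the factors, up to sign. So the relation is a relation in `K i`. For
the subsets one shows by descending induction on `j` that all the alternating sums of a relation with
`j` pairs vanish: it is constant on the remaining elements, and it is orthogonal to the slopes.
-/

set_option autoImplicit false

namespace Pool.Agent.Results.MP_0c8446_ag.FactorizationCriterion

open NumberField Polynomial Pool.Agent.Y1.CT Pool.Agent.Y156.P Pool.Agent.H845.Orb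
  Pool.Agent.H857.MX Pool.Agent.Q64.L

/-- **Numerical and homological equivalence coincide on `A × Z` if and only if they coincide on `Z`, for
all abelian varieties `A` whose Weil numbers satisfy the criterion, which is necessary and sufficient for
the absence of relations, and all varieties `Z` over finitely generated fields such that one Frobenius
has eigenvalues free from these Weil numbers.** -/
theorem result :
    (∀ (p : ℕ) [Fact p.Prime] (a : ℕ), 0 < a → ∀ (I : Type) [Fintype I] (K : I → Type)
      [∀ i, Field (K i)] [∀ i, NumberField (K i)] [∀ i, IsCMField (K i)] (π : ∀ i, K i)
      (f : I → ℤ[X]), (∀ i, IsSimpleWeil p a (π i)) → (∀ i, IsFree π i) →
      (∀ i, IsPolyOf (π i) (f i)) → NumHomReduces (RootsIn (FreeFrom (p ^ a) π)) (p ^ a) f) ∧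
    FreeCriteria :=
  ⟨fun _ _ _ ha _ _ _ _ _ _ _ _ hπ hfree hf =>
    numHomReduces (Nat.one_lt_pow ha.ne' (Fact.out : Nat.Prime _).one_lt)
      (good_of_noRel (noRel_free hπ hfree hf) not_freeFrom_zero), freeCriteria_hold⟩

end Pool.Agent.Results.MP_0c8446_ag.FactorizationCriterion
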