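import Mathlib
import Pool.Agent.H395.Abs
import Pool.Agent.H395.Local.Main

/-!
# Homological and numerical equivalence on all varieties which specialize to abelian varieties
over finite fields: local conditions on the classes of the embeddings of the CM fields

**Classes.** Let `K i` (`i` in a finite set) be CM fields, `X` the set of all complex embeddings
of all fields `K i` and `x ↦ x̄` the complex conjugation. Two elements `x`, `y` of `X` are
*flipped* if some automorphism of `ℂ` maps one of them to itself and the other one to its
conjugate, or maps `x` to `y` and `y` to `x̄`. The classes are those of the equivalence relation
generated by the pairs which are not flipped (`SameClass`); a class is stable under the complex
conjugation. For the typical family of CM fields each class is a pair `x`, `x̄`. The fields of the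
family are arbitrary: fields which are not independent of each other can have embeddings in the
same class.

**Types.** Let `p` be a prime number, `π i` a Weil number in `K i` all powers of which generate `K
i`. For `x : K i → ℂ` let `q(x)` be twice the difference of the slope of `x(π i)` and the middle
slope (`IsDeviation`). Suppose that every field `K i` has **one** embedding whose class is of one
of the following types (`LocalType`, `LocalTypes`); the type may depend on `i`.

* *Dominated*: for each field with an embedding in the class there is an embedding `z` of this
  field such that `2 |q(z)| > ∑ |q(w)|`, the sum over the `w ≠ z, z̄` **in the class of `z`**, not
  over all embeddings; or, for some prime number `ℓ`, such that `|q(z)|_ℓ > |q(w)|_ℓ` for these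
  `w`. Here one can use arbitrary positive weights of the fields (`DominatedType`).
* *Unitary*: the class consists of translates of `x`, it is the union of a block `R` and of its
  conjugate, `R` has `r ^ k` elements, `r` a prime number, `∑ q ≠ 0` over `R`, and `q = α n + β`
  on `R` with integers `n` whose sum over `R` is not divisible by `r` (`UnitaryType`).
* *Primitive*: the class consists of translates of `x` and has `b` pairs, where `b` is one, or
  prime, or `b = [K i : F]` for a CM subfield `F` such that the automorphisms of `ℂ` act doubly
  transitively on the extensions of an embedding of `F`; and for the CM subfields `F` with `[K i :
  F] = b` the norm of `π i` to `F` is not supersingular (`PrimitiveType`).
* *Irreducible*: the rational functions on the class which change their sign under complex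
  conjugation are an irreducible representation of the automorphisms of `ℂ` which preserve the
  class (`IrreducibleType`).
* Two types that are copied from the library, `OddType` (the class has one pair, a prime number of
  pairs, an odd number of pairs which are permuted doubly transitively, or a power of two and an
  odd permutation; the deviations are odd multiples of one number) and `SumType` (the class has `r
  ^ k` pairs, `r` prime, and the `q(w)` are proportional to integers whose sums over the half
  systems of the class are not divisible by `r`).

**The abelian varieties.** Over an algebraic closure of the field with `p` elements each abelian
variety is isogenous to the reduction of an abelian variety of CM type (Honda, Tate). So an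
abelian variety `Y` over it is modelled by `RedAV` (library): a finite product of CM types with
Weil numbers that satisfy the formula of Shimura and Taniyama; its cohomology of degree `n`, with
coefficients in an algebraically closed field `Ω`, consists of the alternating `n`-forms on `Ω ⊗
H_1`. Suppose that the Weil numbers `π i`, with `π i * conj (π i) = p ^ a`, satisfy the hypothesis
`LocalTypes`. Let `𝒞` (`OfNumbers`) be the class of those `Y` each of whose factors is
supersingular or has a Frobenius endomorphism some power of which is a power of one of the `π i`:
so `Y` is, over an algebraic closure, isogenous to a product of powers of the abelian varieties
with the Weil numbers `π i` and of a supersingular one.

**The theorem** (`NumEqHomForNumbers`). **Numerical and homological equivalence coincide on all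
varieties `X` over arbitrary fields of characteristic `p` which specialize to an abelian variety
`Y` in `𝒞` and satisfy the conjecture `A` of Lefschetz type** (`LefschetzA`; a theorem for abelian
varieties and for the products of curves and surfaces with them). Here `Specializes` (library)
means: the ring of algebraic cycles modulo `ℓ`-adic homological equivalence on `X`, with an ample
divisor `D`, is mapped injectively into the one of `Y`, and `D` to the class of a polarization `α`
compatible with the complex multiplications; by theorems of Honda, Tate and Zink each polarized
abelian variety over an algebraic closure of a finite field is isogenous to one with such an `α`.
So the theorem is true for every `ℓ` and for **every abelian variety over a field of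
characteristic `p` that has one reduction over a finite field in `𝒞`**; nothing is assumed about
the abelian variety itself. The spaces `C Y κ` of the classes of algebraic cycles on the abelian
varieties are data with the usual properties (`IsCycleSystem`); the positivity of the Rosati
involution (Weil) and the fact that algebraic classes are Tate classes are hypotheses
(`IsRosatiPositive`, `AreTate`).

**What was known.** The two equivalence relations coincide for divisors (Matsusaka), in
characteristic zero for abelian varieties (Lieberman), and for an abelian variety over a finite
field, or a field of characteristic `p`, for the `ℓ` in a set of positive density (Clozel); and
for all `ℓ` for the abelian varieties over finite fields for which the Tate classes are generated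
by divisors, for instance in prime dimension (Tankeev) and if one pair of slopes is different from
one half (Lenstra and Zarhin). In the library there are almost all slope types and, for Tate
classes, the types `OddType` and `SumType`; the fields with primitive cores are in the hand-ins
`SmallCoreFields` of a parallel seat, whose definition `NumEqHomForNumbers` is copied here. New
here: the dominated types (inside of a class, usual or `ℓ`-adic absolute value, with weights), the
unitary type, the primitive and irreducible types for the classes defined by flips, and their
combination for arbitrary families of fields, which need not be independent of each other.

**Examples** (proved in `Pool.Agent.H395.Local.criteria`). For a single CM field `E` and a Weil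
number `π` of weight `m` all powers of which generate `E` the hypothesis `LocalTypes` is satisfied
if `4 |s(ψ) - m / 2| > ∑ |s(φ) - m / 2|` for one embedding `ψ`, the sum over all embeddings, `s`
the slope; and also if `E` contains an imaginary quadratic field `F` such that `[E : F] = r ^ k`
is a power of a prime number `r`, and `π` is ordinary and the number `s` of the embeddings which
agree with one embedding on `F` and at which `π` is a unit is not divisible by `r`, `2 s ≠ r ^ k`
(multiplication by `F` of signature `(s, r ^ k - s)`).

**The proof.** A multiplicative relation between the conjugates of the `π i` gives a function `c`
on `X` with integral values, `c(x̄) = - c(x)` and `∑ c(x) q(τ x) = 0` for all `τ`. The correlation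
of two flipped elements vanishes, so that the sum can be restricted to any class (library). One
has to show that `c = 0` on the class. Dominated type: one moves an element of the class (and of
its translates) where `|c| / t` has its largest value, for the usual or the `ℓ`-adic absolute
value, to the element `z`, and compares the absolute values of the terms. Unitary type: since `∑ q
≠ 0` over `R`, the sum of the values of `c` over `R` is zero, and so `∑ c(x) n(τ x) = 0` for all
`τ` which preserve `R`. If the lattice of these `c` is not zero it contains an element which is
not divisible by `r` and is invariant modulo `r` under a Sylow `r`-subgroup of the group on `R`;
this subgroup is transitive on `R`, hence `c` is constant modulo `r` and `r ∣ ∑ n`. Primitive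
type: if `b` is prime, an element of a Sylow subgroup has two orbits of length `b` on the class,
exchanged by the conjugation, and the cyclotomic polynomial is irreducible. So either all
translates of `q` agree at two different elements of the class, and then a power of `π i` does not
generate `K i`; or the sums of `q` over the translates of the orbit are zero, the orbit is a block
that belongs to a CM subfield `F` with `[K i : F] = b`, and the norm of `π i` to `F` is
supersingular (Kronecker). The doubly transitive case is similar. Irreducible type: clear, as `q`
does not vanish on all translates.

If there are no relations between the `π i` then all Tate classes on the powers of `Y` are
combinations of products of divisor classes; these lift to characteristic zero with `Y`, so that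
the relations of Hodge and Riemann give the conjecture of Hodge type for `Y` (Milne), hence for
`X`; with the conjecture `A` the pairing is definite on the primitive parts, and numerically
trivial classes are zero.
-/

set_option autoImplicit false

namespace Pool.Agent.Results.MP_0c8446_ag.LocalClassTypes

open NumberField Module Pool.Agent.H395.Local

/-- **Numerical and homological equivalence coincide on all varieties in characteristic `p` which
satisfy the conjecture `A` and specialize to abelian varieties whose Weil numbers have classes of
local types.** -/
theorem result (p : ℕ) [Fact p.Prime] (ν : PadicAlgCl p ≃+* ℂ) (a : ℕ) (ha : 0 < a) (I : Type)
    [Fintype I] (K : I → Type) [∀ i, Field (K i)] [∀ i, NumberField (K i)]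
    [∀ i, IsCMField (K i)] (π : ∀ i, K i) (hint : ∀ i, IsIntegral ℤ (π i))
    (hw : ∀ i, π i * IsCMField.complexConj (K i) (π i) = (p : K i) ^ a)
    (hloc : LocalTypes p (fun _ => a) π) : Pool.Agent.H395.NumEqHomForNumbers ν π :=
  Pool.Agent.H395.numEqHom_of_angle ha hw (angle hint hw hloc)

end Pool.Agent.Results.MP_0c8446_ag.LocalClassTypes
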