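import Mathlib
import Pool.Agent.H845.Rel.Main

/-!
# Homological and numerical equivalence on `X × Y`, `X` an arbitrary variety, `Y` generated by curves,
# K3 surfaces, ...: the square `X × X` decides

Clozel proved in 1999 that for an abelian variety over a finite field homological and numerical
equivalence coincide, for the `ℓ`-adic cohomology with `ℓ` in a set of primes of positive density. His
argument replaces the positivity of polarizations (the standard conjecture of Hodge type, which is not
known in positive characteristic) by the complex conjugation in a decomposition group above `ℓ`; it
needs the Tate conjecture for endomorphisms, and was extended to all varieties generated by varieties
with this property (`GeneratedByTateSquares`, `RingGenerated` in the library).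

Here we consider the products `X × Y` of such varieties `Y` with an **arbitrary** variety `X`, for
which nothing is known: no case of the Tate conjecture, no semisimplicity, no standard conjecture.

**The setting.** `W` is a Weil cohomology theory on a class of smooth proper varieties over any field
`k` which is closed under products, `E` is a field of complex numbers, and `T` is the set of the
varieties `P` in the class with `IsWeilVariety W E P`: they have an endomorphism with the properties of
a Frobenius endomorphism over the field with `q` elements, semisimple on the cohomology, with
eigenvalues in `E`, the Tate conjecture holds for the operators on the transcendental part of `H(P)`,
and `P` satisfies the conjectures B and D. Known examples are all curves, abelian surfaces and `K3`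
surfaces over finite fields, and their base changes to any field `k` of characteristic `p`.

**The theorem** (`ExtendsBy`). Suppose that the complex conjugation on `E` is induced by an
automorphism `τ` over `W.K` of an algebraically closed field `L` which contains `W.K`, for some
embedding of `E` in `L`. If `E` is a finite normal extension of `ℚ` and `W` is an `ℓ`-adic theory this
is so for a set of primes `ℓ` of lower density at least `1 / [E : ℚ]`, which depends only on `E` (the
second part of the theorem; `conjDensity` is the proportion of the automorphisms of `E` some power of
which is the complex conjugation). Then the following is true.

1. (`SquaresDecide`) Let `Y` be a variety whose cohomology ring is generated from `T`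
   (`IsRingGenerated`): for example all products of members of `T`, all varieties dominated by them,
   or with motives which are direct summands, moduli spaces of stable bundles on curves, and so on.
   **For all varieties `X`: if homological and numerical equivalence coincide on `X × X`, then they
   coincide on `X × Y`.** More precisely, they coincide on `X × Y` **if and only if** for any two
   numerically trivial correspondences `z` from `X` to `Y` and `w` from `Y` to `X` the composite
   `w ∘ z`, a cycle on `X × X`, is homologically trivial.
2. For every set `S` of varieties: homological and numerical equivalence coincide on all products of
   members of `S` if and only if they coincide on all varieties whose cohomology ring is generated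
   from `S ∪ T`. For `S = {X}`: **if they coincide on all powers of `X`, then they coincide on all
   `X ^ m × Y` with `Y` as above**, on all varieties dominated by them, and so on; for example on the
   products of `X` with any number of curves and `K3` surfaces.

So adding curves, `K3` surfaces, ... never creates a new difference between homological and numerical
equivalence. In characteristic zero this follows from the standard conjecture B and the Hodge index
theorem; in positive characteristic B for `X` and `Y` does not help, since the Hodge standard
conjecture for `X × Y` is missing.

**The proof.** Let `φ : H(X) → H(Y)` be given by a numerically trivial cycle and `φ ≠ 0`. After an
extension of the coefficients `H(Y)` is, for a product `Y` of members of `T`, a direct sum of subspaces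
(blocks) on which all operators are algebraic, permuted by the semilinear automorphism `σ` of the
cohomology which belongs to `τ`; and each block `B` pairs with its conjugate `σ B` by an algebraic
correspondence `θ`. Since `φ` commutes with `σ`, if `B`, the projection to which is `e`, meets `φ a`
nontrivially, then `σ B` meets `φ (σ a)` nontrivially. The operators on the blocks move `e φ a` to `y`
and the component of `φ (σ a)` to `σ y'` with `tr (y · θ σ y') ≠ 0`. This number is `tr (σ a · ψ φ a)`
where `ψ : H(Y) → H(X)` is a combination of composites of algebraic operators with the transpose of
`φ`. So `ψ φ ≠ 0`; and it is a combination of composites of numerically trivial correspondences
through `Y`. No positivity on `X` and nothing on the structure of `H(X)` is used. The step from the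
products to ring generated varieties is done by the transposes of the generating correspondences.

**What was known.** The case without `X` is the theorem of Clozel and its extensions quoted above,
whose blocks are used. For arbitrary `X` there were theorems on `A × X` when the Frobenius eigenvalues
of `A` and `X` are unrelated (then the classes on the product are sums of products); here there is no
such condition.
-/

set_option autoImplicit false

universe u v

namespace Pool.Agent.Results.MP_0c8446_ag.SquareDecides

open Pool.Agent.H914 Pool.Agent.TH127 Pool.Agent.W522.C Pool.Agent.H845.Rel

/-- **Homological and numerical equivalence on the products of arbitrary varieties with varieties
generated by varieties with known Tate conjecture for the square**: they coincide on `X × Y` if they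
coincide on `X × X`; for all cohomology theories on whose coefficients the complex conjugation of `E`
is induced by an automorphism, and for all primes `ℓ` in a set of positive density. -/
theorem result :
    (∀ (k : Type u) [Field k] (𝒱 : VarClass k) (ops : CycleOps 𝒱) (W : WeilCohomology.{u, v} ops)
      (E : Subfield ℂ) (L : Type v) [Field L] [Algebra W.K L] [IsAlgClosed L] (ι : E →+* L)
      (τ : L ≃ₐ[W.K] L), (∀ x y : E, (y : ℂ) = (starRingEnd ℂ) (x : ℂ) → τ (ι x) = ι y) →
      ExtendsBy W {P | IsWeilVariety W E P}) ∧
    ∀ (E : Subfield ℂ) [NumberField E] [IsGalois ℚ E],
      1 / (Module.finrank ℚ E : ℝ) ≤ conjDensity E ∧
        LowerDensity {ℓ | ∃ h : ℓ.Prime, @ExtendsAt.{u, v} E ℓ ⟨h⟩} (conjDensity E) :=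
  ⟨fun _ _ _ _ W E L _ _ _ ι τ hτ => extendsBy_weil W E L ι τ hτ,
    fun E _ _ => ⟨one_div_le_conjDensity E, extends_density E⟩⟩

end Pool.Agent.Results.MP_0c8446_ag.SquareDecides
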