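import Pool.Agent.H846.Swp.Fin

/-!
# MP_0c8446_ag: homological and numerical equivalence over finite fields, symmetric cycles and the
Hilbert scheme of two points

Let `X` be a smooth projective variety of dimension `n` over a finite field with `q` elements, `f`
its Frobenius endomorphism and `W` a Weil cohomology theory. The difference `f × 1 - 1 × f` of the
partial Frobenius endomorphisms exchanges symmetric and antisymmetric cycles on `X × X`, and it
kills only cycles on which `f ^ (2 m) × 1` acts by a power of `q`.

* For each `c`, homological and numerical equivalence coincide for the cycles of codimension `c` on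
  `X × X` if and only if this holds for the symmetric ones (or for the antisymmetric ones) and
  for those on whose class some `f ^ (2 m) × 1` acts as multiplication by `q ^ (m c)`.
* The last condition can be omitted if the Tate classes in `H^c(X)` are algebraic (for odd `c`: if
  there are none) and homological and numerical equivalence coincide for the cycles of codimension
  `c / 2` on `X`.
* If this holds for `c = n` and `X` satisfies the hard Lefschetz theorem, the two equivalences
  coincide for all cycles on `X × X` if and only if they coincide for the cycles of codimension `n`
  and `n + 1` on the Hilbert scheme `X^[2]`.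
-/

open CategoryTheory AlgebraicGeometry

universe u v

namespace Pool.Agent.Results.MP_0c8446_ag.SymmetricSquare

open Pool.Agent.H914 Pool.Agent.H914.VarClass Pool.Agent.H914.VarClass.Obj
  Pool.Agent.H914.WeilCohomology Pool.Agent.R909 Pool.Agent.H846.Swp

variable {k : Type u} [Field k] {𝒱 : VarClass k} {ops : CycleOps 𝒱}

/-- **Symmetric cycles on `X × X` over finite fields.** -/
theorem result (W : WeilCohomology.{u, v} ops) (X : 𝒱.Obj) (f : X ⟶ X) (q : ℕ) (hq : 1 < q)
    (hF : FrobeniusOnCycles W (X.prod X) (squareMap f) q) (hRH : RiemannHypothesis W X f q) :
    -- one codimension `c`, for every `X`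
    (∀ c, DecidedByHalf W X f q c) ∧
    -- one codimension `c`, given the Tate conjecture in `H^c(X)`
    (∀ c, TateIn W X f q c → PartialNumIsHom W X f q c ∧ HalfDecides W X c) ∧
    -- the Hilbert scheme `Y` of two points
    (∀ (D : X.Cycles) (Y : 𝒱.Obj), IsPolarization W X D → IsHilb W Y X →
      PartialNumIsHom W X f q X.dim → SquareIffHilb W X Y) := by
  have hpart : ∀ c, TateIn W X f q c → PartialNumIsHom W X f q c :=
    fun c h => partial_of_tate hq hRH hF h.1 h.2
  exact ⟨decidedByHalf hF, fun c h => ⟨hpart c h, halfDecides hF (hpart c h)⟩,
    fun D Y hD hY hP => squareIffHilb hF hD hY hP⟩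

end Pool.Agent.Results.MP_0c8446_ag.SymmetricSquare
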